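import Pool.Agent.H610.HD.Stm3

/-!
# Two distant regions: `S_split` (MP_09cbbd_mp, helper610)
-/

set_option autoImplicit false

open MeasureTheory Set Filter

namespace Pool.Agent.H177.HD610

open Pool.Agent.K4H96.HS Pool.Agent.H610.HD

variable {d N₁ N₂ : ℕ}

/-- a bijection which maps the left part onto `A` -/
lemma exists_equiv (A : Finset (Fin (N₁ + N₂))) (hA : A.card = N₁) :
    ∃ e : Fin N₁ ⊕ Fin N₂ ≃ Fin (N₁ + N₂), (∀ i, e (Sum.inl i) ∈ A) ∧ ∀ j, e (Sum.inr j) ∉ A := by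
  have h1 : Fintype.card {i // i ∈ A} = Fintype.card (Fin N₁) := by
    rw [Fintype.card_coe, hA, Fintype.card_fin]
  have h2 : Fintype.card {i // ¬ i ∈ A} = Fintype.card (Fin N₂) := by
    have h3 := Fintype.card_subtype_compl (fun i => i ∈ A)
    rw [h3, h1, Fintype.card_fin, Fintype.card_fin, Fintype.card_fin]
    omega
  refine ⟨((Fintype.equivOfCardEq h1.symm).sumCongr (Fintype.equivOfCardEq h2.symm)).trans
    (Equiv.sumCompl (fun i => i ∈ A)), fun i => ?_, fun j => ?_⟩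
  · simp
  · simp only [Equiv.trans_apply, Equiv.sumCongr_apply, Sum.map_inr, Equiv.sumCompl_apply_inr]
    exact (Fintype.equivOfCardEq h2.symm j).2

/-- the part of the configurations with the particles of `A` in `Λ₁` and the others in `Λ₂` -/
def EA (r : ℝ) (Λ₁ Λ₂ : Set (Fin d → ℝ)) (A : Finset (Fin (N₁ + N₂))) :
    Set (Fin (N₁ + N₂) → Fin d → ℝ) :=
  {x | x ∈ Conf (N₁ + N₂) d r (Λ₁ ∪ Λ₂) ∧ (∀ i ∈ A, x i ∈ Λ₁) ∧ ∀ i, i ∉ A → x i ∈ Λ₂}

/-- restriction to the two parts -/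
def TT (e : Fin N₁ ⊕ Fin N₂ ≃ Fin (N₁ + N₂)) (x : Fin (N₁ + N₂) → Fin d → ℝ) :
    (Fin N₁ → Fin d → ℝ) × (Fin N₂ → Fin d → ℝ) :=
  (fun i => x (e (Sum.inl i)), fun j => x (e (Sum.inr j)))

lemma mp_TT (e : Fin N₁ ⊕ Fin N₂ ≃ Fin (N₁ + N₂)) :
    MeasurePreserving (TT (d := d) e) volume volume := by
  have h1 := volume_measurePreserving_sumPiEquivProdPi (fun _ : Fin N₁ ⊕ Fin N₂ => Fin d → ℝ)
  have h2 := (volume_measurePreserving_piCongrLeft (fun _ : Fin (N₁ + N₂) => Fin d → ℝ) e).symm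
  exact h1.comp h2

lemma EA_eq (r : ℝ) (Λ₁ Λ₂ : Set (Fin d → ℝ))
    (hd : ∀ y ∈ Λ₁, ∀ z ∈ Λ₂, r ^ 2 ≤ ∑ k, (y k - z k) ^ 2) (A : Finset (Fin (N₁ + N₂)))
    (e : Fin N₁ ⊕ Fin N₂ ≃ Fin (N₁ + N₂)) (h1 : ∀ i, e (Sum.inl i) ∈ A)
    (h2 : ∀ j, e (Sum.inr j) ∉ A) :
    EA r Λ₁ Λ₂ A = TT e ⁻¹' (Conf N₁ d r Λ₁ ×ˢ Conf N₂ d r Λ₂) := by
  ext x
  constructor
  · rintro ⟨⟨-, hx2⟩, hx3, hx4⟩
    refine ⟨⟨fun i => hx3 _ (h1 i), fun i j hij => hx2 _ _ fun h => hij ?_⟩,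
      ⟨fun i => hx4 _ (h2 i), fun i j hij => hx2 _ _ fun h => hij ?_⟩⟩
    · exact Sum.inl_injective (e.injective h)
    · exact Sum.inr_injective (e.injective h)
  · rintro ⟨⟨ha1, ha2⟩, ⟨hb1, hb2⟩⟩
    have ha1' : ∀ i, x (e (Sum.inl i)) ∈ Λ₁ := ha1
    have hb1' : ∀ j, x (e (Sum.inr j)) ∈ Λ₂ := hb1
    refine ⟨⟨fun k => ?_, fun k l hkl => ?_⟩, fun k hk => ?_, fun k hk => ?_⟩
    · obtain ⟨b, rfl⟩ := e.surjective k
      rcases b with i | j
      · exact Or.inl (ha1' i)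
      · exact Or.inr (hb1' j)
    · obtain ⟨b, rfl⟩ := e.surjective k
      obtain ⟨b', rfl⟩ := e.surjective l
      rcases b with i | j
      · rcases b' with i' | j'
        · exact ha2 i i' fun h => hkl (by rw [h])
        · exact hd _ (ha1' i) _ (hb1' j')
      · rcases b' with i' | j'
        · refine (hd _ (ha1' i') _ (hb1' j)).trans (le_of_eq ?_)
          exact Finset.sum_congr rfl fun k _ => by ring
        · exact hb2 j j' fun h => hkl (by rw [h])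
    · obtain ⟨b, rfl⟩ := e.surjective k
      rcases b with i | j
      · exact ha1' i
      · exact absurd hk (h2 j)
    · obtain ⟨b, rfl⟩ := e.surjective k
      rcases b with i | j
      · exact absurd (h1 i) hk
      · exact hb1' j

theorem split : S_split := by
  intro d N₁ N₂ r Λ₁ Λ₂ hr hΛ₁ hΛ₂ hd
  have hm1 : MeasurableSet (Conf N₁ d r Λ₁) := (conf_compact r Λ₁ hΛ₁).measurableSet
  have hm2 : MeasurableSet (Conf N₂ d r Λ₂) := (conf_compact r Λ₂ hΛ₂).measurableSet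
  have hvol : ∀ A ∈ Finset.powersetCard N₁ (Finset.univ : Finset (Fin (N₁ + N₂))),
      MeasurableSet (EA r Λ₁ Λ₂ A) ∧ volume (EA r Λ₁ Λ₂ A) =
        volume (Conf N₁ d r Λ₁) * volume (Conf N₂ d r Λ₂) := by
    intro A hA
    obtain ⟨e, he1, he2⟩ := exists_equiv A (Finset.mem_powersetCard.1 hA).2
    rw [EA_eq r Λ₁ Λ₂ hd A e he1 he2]
    refine ⟨(hm1.prod hm2).preimage (mp_TT e).measurable, ?_⟩
    rw [(mp_TT e).measure_preimage (hm1.prod hm2).nullMeasurableSet, Measure.volume_eq_prod,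
      Measure.prod_prod]
  have hdisj : (↑(Finset.powersetCard N₁ (Finset.univ : Finset (Fin (N₁ + N₂)))) :
      Set (Finset (Fin (N₁ + N₂)))).PairwiseDisjoint (EA r Λ₁ Λ₂) := by
    intro A _ A' _ hAA'
    rw [Function.onFun, Set.disjoint_left]
    rintro x ⟨-, hx1, hx2⟩ ⟨-, hy1, hy2⟩
    refine hAA' (Finset.ext fun i => ?_)
    have hno : ∀ v, v ∈ Λ₁ → v ∈ Λ₂ → False := by
      intro v h1 h2
      have h3 := hd v h1 v h2
      simp only [sub_self] at h3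
      have h4 : 0 < r ^ 2 := by positivity
      simp at h3
      linarith
    constructor
    · intro hi
      by_contra hi'
      exact hno _ (hx1 i hi) (hy2 i hi')
    · intro hi
      by_contra hi'
      exact hno _ (hy1 i hi) (hx2 i hi')
  calc ((N₁ + N₂).choose N₁ : ENNReal) * (volume (Conf N₁ d r Λ₁) * volume (Conf N₂ d r Λ₂))
      = ∑ A ∈ Finset.powersetCard N₁ (Finset.univ : Finset (Fin (N₁ + N₂))),
          volume (EA r Λ₁ Λ₂ A) := by
        rw [Finset.sum_congr rfl (fun A hA => (hvol A hA).2), Finset.sum_const,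
          Finset.card_powersetCard, Finset.card_univ, Fintype.card_fin, nsmul_eq_mul]
    _ = volume (⋃ A ∈ Finset.powersetCard N₁ (Finset.univ : Finset (Fin (N₁ + N₂))),
          EA r Λ₁ Λ₂ A) :=
        (measure_biUnion_finset hdisj fun A hA => (hvol A hA).1).symm
    _ ≤ volume (Conf (N₁ + N₂) d r (Λ₁ ∪ Λ₂)) := by
        refine measure_mono ?_
        intro x hx
        simp only [mem_iUnion] at hx
        obtain ⟨A, -, hx⟩ := hx
        exact hx.1

end Pool.Agent.H177.HD610
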